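import Mathlib

/-!
# Closed subgroups of products of minimal abelian groups and compact groups
-/

set_option autoImplicit false

open Topology Filter Set

namespace Pool.Agent.K4H26.MinimalGroups

universe u v w

/-- The topological group `G` is minimal: every Hausdorff group topology on `G` which is coarser than
the given topology is equal to it. -/
def IsMinimalGroup (G : Type u) [Group G] [τ : TopologicalSpace G] : Prop :=
  ∀ σ : TopologicalSpace G, @IsTopologicalGroup G σ _ → @T2Space G σ → τ ≤ σ → σ = τ

/-- The topological group `G` is totally minimal: for every closed normal subgroup `N` the quotient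
`G ⧸ N` is minimal. -/
def IsTotallyMinimalGroup (G : Type u) [Group G] [TopologicalSpace G] : Prop :=
  ∀ (N : Subgroup G) [N.Normal], IsClosed (N : Set G) → IsMinimalGroup (G ⧸ N)

/-- The topological group `G` is c-minimal: every closed subgroup of `G` is minimal. -/
def IsCMinimalGroup (G : Type u) [Group G] [TopologicalSpace G] : Prop :=
  ∀ H : Subgroup G, IsClosed (H : Set G) → IsMinimalGroup H

/-- The topological group `G` is c-totally minimal: every closed subgroup of `G` is totally
minimal. -/
def IsCTotallyMinimalGroup (G : Type u) [Group G] [TopologicalSpace G] : Prop :=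
  ∀ H : Subgroup G, IsClosed (H : Set G) → IsTotallyMinimalGroup H

/-- A minimal group has no non-open continuous isomorphism onto a Hausdorff group. -/
theorem IsMinimalGroup.continuous_symm {G : Type u} [Group G] [TopologicalSpace G]
    {S : Type v} [Group S] [TopologicalSpace S] [IsTopologicalGroup S] [T2Space S]
    (hG : IsMinimalGroup G) (f : G ≃* S) (hf : Continuous f) : Continuous f.symm := by
  have h1 : @IsTopologicalGroup G (TopologicalSpace.induced f inferInstance) _ :=
    topologicalGroup_induced f
  have h2 : @T2Space G (TopologicalSpace.induced f inferInstance) := by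
    let _ : TopologicalSpace G := TopologicalSpace.induced f inferInstance
    exact T2Space.of_injective_continuous f.injective continuous_induced_dom
  have h3 := hG _ h1 h2 (continuous_iff_le_induced.mp hf)
  rw [← h3]
  refine continuous_induced_rng.mpr ?_
  have : (⇑f ∘ ⇑f.symm) = id := by
    funext x
    simp
  rw [this]
  exact continuous_id

/-- Conversely. -/
theorem isMinimalGroup_of_continuous_symm {G : Type u} [Group G] [TopologicalSpace G]
    (h : ∀ (S : Type u) [Group S] [TopologicalSpace S] [IsTopologicalGroup S] [T2Space S]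
      (f : G ≃* S), Continuous f → Continuous f.symm) : IsMinimalGroup G := by
  intro σ h1 h2 h3
  refine le_antisymm ?_ h3
  have h4 := @h G _ σ h1 h2 (MulEquiv.refl G) (continuous_id_iff_le.mpr h3)
  exact continuous_id_iff_le.mp h4

/-- A closed subgroup of a minimal abelian group is minimal. -/
theorem closed_embedding_symm {A : Type u} [CommGroup A] [TopologicalSpace A]
    [IsTopologicalGroup A] [T2Space A] (hA : IsMinimalGroup A)
    {H : Type v} [Group H] [TopologicalSpace H] 
    (i : H →* A) (hi : IsClosedEmbedding i)
    {S : Type w} [Group S] [TopologicalSpace S] [IsTopologicalGroup S] [T2Space S]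
    (j : H ≃* S) (hj : Continuous j) : Continuous j.symm := by
  have hcommS : ∀ x y : S, x * y = y * x := by
    intro x y
    apply j.symm.injective
    apply hi.injective
    rw [map_mul, map_mul, map_mul, map_mul, mul_comm]
  -- the homomorphism `S × A → A`
  let φ : S × A →* A :=
    { toFun := fun p => i (j.symm p.1) * p.2
      map_one' := by simp
      map_mul' := by
        intro p q
        simp only [Prod.fst_mul, Prod.snd_mul, map_mul]
        exact mul_mul_mul_comm _ _ _ _ }
  have hφs : Function.Surjective φ := fun a => ⟨(1, a), by simp [φ]⟩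
  -- the kernel is closed
  have hker : IsClosed (φ.ker : Set (S × A)) := by
    have h1 : IsClosed {p : S × H | p.1 = (j p.2)⁻¹} :=
      isClosed_eq continuous_fst ((hj.comp continuous_snd).inv)
    have h2 : IsClosedEmbedding (Prod.map (id : S → S) (i : H → A)) :=
      IsClosedEmbedding.id.prodMap hi
    have h3 := h2.isClosedMap _ h1
    convert h3 using 1
    ext p
    simp only [SetLike.mem_coe, MonoidHom.mem_ker, mem_image, mem_ofPred_eq, Prod.exists,
      Prod.map_apply, id_eq, φ, MonoidHom.coe_mk, OneHom.coe_mk]
    constructor
    · intro hp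
      refine ⟨p.1, j.symm p.1⁻¹, by simp, ?_⟩
      ext
      · rfl
      · show i (j.symm p.1⁻¹) = p.2
        rw [map_inv, map_inv]
        exact inv_eq_of_mul_eq_one_right hp
    · rintro ⟨x, y, h, rfl⟩
      subst h
      simp
  have : IsClosed (φ.ker : Set (S × A)) := hker
  -- the quotient
  let Q := (S × A) ⧸ φ.ker
  have hT3 : T3Space Q := QuotientGroup.instT3Space φ.ker
  have hT2 : T2Space Q := inferInstance
  let e : Q ≃* A := QuotientGroup.quotientKerEquivOfSurjective φ hφs
  have he : ∀ p : S × A, e (QuotientGroup.mk p) = φ p := fun p => rfl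
  have hec : Continuous e.symm := by
    have : ⇑e.symm = fun a => (QuotientGroup.mk ((1 : S), a) : Q) := by
      funext a
      rw [MulEquiv.symm_apply_eq, he]
      simp [φ]
    rw [this]
    exact QuotientGroup.continuous_mk.comp (Continuous.prodMk continuous_const continuous_id)
  have hec2 : Continuous e := by
    have := hA.continuous_symm e.symm hec
    simpa using this
  have h5 : Continuous fun s : S => i (j.symm s) := by
    have : (fun s : S => i (j.symm s)) = fun s => e (QuotientGroup.mk (s, (1 : A))) := by
      funext s
      rw [he]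
      simp [φ]
    rw [this]
    exact hec2.comp (QuotientGroup.continuous_mk.comp
      (Continuous.prodMk continuous_id continuous_const))
  exact hi.isEmbedding.continuous_iff.mpr h5

/-- **Extensions by compact groups.** `f : G → B` is a continuous homomorphism with compact kernel
to a minimal abelian group `B`, with closed image, and a quotient map onto its image.  Then `G` is
minimal. -/
theorem isMinimalGroup_of_compact_ker {G : Type u} [Group G] [TopologicalSpace G]
    [IsTopologicalGroup G] {B : Type v} [CommGroup B] [TopologicalSpace B]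
    [IsTopologicalGroup B] [T2Space B] (hB : IsMinimalGroup B) (f : G →* B)
    (hker : IsCompact (f.ker : Set G)) (hrange : IsClosed (f.range : Set B))
    (hq : IsQuotientMap f.rangeRestrict) : IsMinimalGroup G := by
  apply isMinimalGroup_of_continuous_symm
  intro S _ _ _ _ j hj
  -- the quotient of `S` by the image of the kernel
  have hkr : f.rangeRestrict.ker = f.ker := f.ker_rangeRestrict
  let N : Subgroup S := f.rangeRestrict.ker.map (j : G →* S)
  have hNn : N.Normal := Subgroup.Normal.map inferInstance _ j.surjective
  have hNc : IsClosed (N : Set S) := by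
    have h1 : (N : Set S) = j '' (f.ker : Set G) := by
      rw [← hkr]
      rfl
    rw [h1]
    exact (hker.image hj).isClosed
  have hT3 : T3Space (S ⧸ N) := QuotientGroup.instT3Space N
  -- the range of `f` is a closed subgroup of `B`
  let e : f.range ≃* S ⧸ N :=
    (QuotientGroup.quotientKerEquivOfSurjective f.rangeRestrict
      f.rangeRestrict_surjective).symm.trans (QuotientGroup.congr _ N j rfl)
  have he : ∀ g : G, e (f.rangeRestrict g) = QuotientGroup.mk (j g) := by
    intro g
    have h1 : (QuotientGroup.quotientKerEquivOfSurjective f.rangeRestrict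
      f.rangeRestrict_surjective).symm (f.rangeRestrict g) = QuotientGroup.mk g := by
      rw [MulEquiv.symm_apply_eq]
      rfl
    have h2 : e (f.rangeRestrict g) = QuotientGroup.congr _ N j rfl
        ((QuotientGroup.quotientKerEquivOfSurjective f.rangeRestrict
          f.rangeRestrict_surjective).symm (f.rangeRestrict g)) := rfl
    rw [h2, h1]
    rfl
  have hec : Continuous e := by
    rw [hq.continuous_iff]
    have : (⇑e ∘ ⇑f.rangeRestrict) = fun g => (QuotientGroup.mk (j g) : S ⧸ N) := by
      funext g
      exact he g
    rw [this]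
    exact QuotientGroup.continuous_mk.comp hj
  have hcl : IsClosedEmbedding (f.range.subtype : f.range → B) :=
    hrange.isClosedEmbedding_subtypeVal
  have hes : Continuous e.symm := closed_embedding_symm hB f.range.subtype hcl e hec
  -- `G → G ⧸ ker f` is proper
  have hprop : IsProperMap (QuotientGroup.mk : G → G ⧸ f.ker) := by
    rw [isProperMap_iff_isClosedMap_and_compact_fibers]
    refine ⟨QuotientGroup.continuous_mk, QuotientGroup.isClosedMap_coe hker, ?_⟩
    intro y
    obtain ⟨g, rfl⟩ := QuotientGroup.mk_surjective y
    have h1 : (QuotientGroup.mk : G → G ⧸ f.ker) ⁻¹' {QuotientGroup.mk g} =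
        (fun x => g * x) '' (f.ker : Set G) := by
      ext x
      simp only [mem_preimage, mem_singleton_iff, mem_image, SetLike.mem_coe]
      constructor
      · intro h
        exact ⟨g⁻¹ * x, QuotientGroup.eq.mp h.symm, by simp⟩
      · rintro ⟨y, hy, rfl⟩
        exact (QuotientGroup.eq.mpr (by simpa using hy)).symm
    rw [h1]
    exact hker.image (continuous_const_mul g)
  -- the map from the range to `G ⧸ ker f`
  let r : f.range → G ⧸ f.ker := fun b => QuotientGroup.mk (Classical.choose b.2)
  have hr : ∀ g : G, r (f.rangeRestrict g) = QuotientGroup.mk g := by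
    intro g
    have h1 : f (Classical.choose (f.rangeRestrict g).2) = f g :=
      Classical.choose_spec (f.rangeRestrict g).2
    apply QuotientGroup.eq.mpr
    rw [MonoidHom.mem_ker, map_mul, map_inv, h1, inv_mul_cancel]
  have hrc : Continuous r := by
    rw [hq.continuous_iff]
    have : (r ∘ ⇑f.rangeRestrict) = (QuotientGroup.mk : G → G ⧸ f.ker) := funext hr
    rw [this]
    exact QuotientGroup.continuous_mk
  -- the main argument
  refine continuous_of_continuousAt_one j.symm ?_
  rw [continuousAt_iff_ultrafilter]
  intro F hF
  have h2 : Tendsto (fun s : S => r (e.symm (QuotientGroup.mk s))) F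
      (𝓝 (r (e.symm (QuotientGroup.mk 1)))) :=
    (((hrc.comp hes).comp QuotientGroup.continuous_mk).tendsto 1).mono_left hF
  have h3 : (fun s : S => r (e.symm (QuotientGroup.mk s))) =
      (QuotientGroup.mk : G → G ⧸ f.ker) ∘ j.symm := by
    funext s
    have h4 : e.symm (QuotientGroup.mk s) = f.rangeRestrict (j.symm s) := by
      rw [MulEquiv.symm_apply_eq, he]
      simp
    rw [h4, hr]
    rfl
  rw [h3] at h2
  have h5 : r (e.symm (QuotientGroup.mk 1)) = QuotientGroup.mk (1 : G) := by
    have := congrFun h3 1
    simp only [Function.comp_apply, map_one] at this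
    exact this
  rw [h5] at h2
  have h6 : Tendsto (QuotientGroup.mk : G → G ⧸ f.ker) (F.map j.symm) (𝓝 (QuotientGroup.mk 1)) := h2
  obtain ⟨x, hx1, hx2⟩ := hprop.ultrafilter_le_nhds_of_tendsto h6
  have h7 : Tendsto j (F.map j.symm) (𝓝 (j x)) := (hj.tendsto x).mono_left hx2
  have h8 : Tendsto (fun s : S => s) F (𝓝 (j x)) := by
    have h9 : Tendsto (fun s => j (j.symm s)) F (𝓝 (j x)) := h7
    simpa using h9
  have h9 : j x = 1 := tendsto_nhds_unique h8 hF
  have h10 : x = 1 := by
    rw [← map_one j] at h9
    exact j.injective h9
  rw [h10] at hx2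
  rw [map_one]
  exact hx2

section Product

set_option linter.unusedSectionVars false

variable {A : Type u} [CommGroup A] [TopologicalSpace A] [IsTopologicalGroup A] [T2Space A]
  {K : Type v} [Group K] [TopologicalSpace K] [IsTopologicalGroup K] [T2Space K] [CompactSpace K]

/-- The projection of a subgroup of `A × K` to `A`. -/
def pr (H : Subgroup (A × K)) : H →* A := (MonoidHom.fst A K).comp H.subtype

theorem pr_isClosedMap {H : Subgroup (A × K)} (hH : IsClosed (H : Set (A × K))) :
    IsClosedMap (pr H) :=
  isClosedMap_fst_of_compactSpace.comp hH.isClosedEmbedding_subtypeVal.isClosedMap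

theorem pr_continuous (H : Subgroup (A × K)) : Continuous (pr H) :=
  continuous_fst.comp continuous_subtype_val

theorem pr_ker {H : Subgroup (A × K)} (hH : IsClosed (H : Set (A × K))) :
    IsCompact ((pr H).ker : Set H) := by
  have h1 : ((pr H).ker : Set H) = Subtype.val ⁻¹' (({1} : Set A) ×ˢ (univ : Set K)) := by
    ext x
    simp [pr, MonoidHom.mem_ker]
  rw [h1]
  exact hH.isClosedEmbedding_subtypeVal.isCompact_preimage
    (isCompact_singleton.prod isCompact_univ)

theorem pr_range {H : Subgroup (A × K)} (hH : IsClosed (H : Set (A × K))) :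
    IsClosed ((pr H).range : Set A) := by
  rw [MonoidHom.coe_range]
  exact (pr_isClosedMap hH).isClosed_range

theorem pr_quot {H : Subgroup (A × K)} (hH : IsClosed (H : Set (A × K))) :
    IsQuotientMap (pr H).rangeRestrict := by
  refine IsClosedMap.isQuotientMap ?_ ?_ (pr H).rangeRestrict_surjective
  · intro C hC
    have h1 : (pr H).rangeRestrict '' C = Subtype.val ⁻¹' (pr H '' C) := by
      ext x
      constructor
      · rintro ⟨c, hc, rfl⟩
        exact ⟨c, hc, rfl⟩
      · rintro ⟨c, hc, h⟩
        exact ⟨c, hc, Subtype.ext h⟩
    rw [h1]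
    exact (pr_isClosedMap hH C hC).preimage continuous_subtype_val
  · exact (pr_continuous H).subtype_mk _

/-- Every closed subgroup of the product of a minimal abelian group and a compact group is
minimal. -/
theorem isMinimalGroup_of_isClosed (hA : IsMinimalGroup A) (H : Subgroup (A × K))
    (hH : IsClosed (H : Set (A × K))) : IsMinimalGroup H :=
  isMinimalGroup_of_compact_ker hA (pr H) (pr_ker hH) (pr_range hH) (pr_quot hH)

/-- Every closed subgroup of the product of a totally minimal abelian group and a compact group is
totally minimal. -/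
theorem isTotallyMinimalGroup_of_isClosed (hA : IsTotallyMinimalGroup A) (H : Subgroup (A × K))
    (hH : IsClosed (H : Set (A × K))) : IsTotallyMinimalGroup H := by
  intro M hM hMc
  let P : Subgroup A := M.map (pr H)
  have hPc : IsClosed (P : Set A) := pr_isClosedMap hH _ hMc
  have hT3 : T3Space (A ⧸ P) := QuotientGroup.instT3Space P
  have hle : M ≤ P.comap (pr H) := Subgroup.le_comap_map _ _
  let f : H ⧸ M →* A ⧸ P := QuotientGroup.map M P (pr H) hle
  have hf : ∀ h : H, f (QuotientGroup.mk h) = QuotientGroup.mk (pr H h) := fun h => rfl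
  have hPR : ∀ a ∈ P, a ∈ (pr H).range := by
    rintro a ⟨m, -, rfl⟩
    exact ⟨m, rfl⟩
  have hsat : ∀ a : A, (QuotientGroup.mk a : A ⧸ P) ∈ f.range → a ∈ (pr H).range := by
    rintro a ⟨x, hx⟩
    obtain ⟨h, rfl⟩ := QuotientGroup.mk_surjective x
    rw [hf] at hx
    have h1 := hPR _ (QuotientGroup.eq.mp hx)
    have h2 : a = pr H h * ((pr H h)⁻¹ * a) := by simp
    rw [h2]
    exact Subgroup.mul_mem _ ⟨h, rfl⟩ h1
  refine isMinimalGroup_of_compact_ker (hA P hPc) f ?_ ?_ ?_
  · have h1 : (f.ker : Set (H ⧸ M)) = QuotientGroup.mk '' ((pr H).ker : Set H) := by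
      ext x
      constructor
      · intro hx
        obtain ⟨h, rfl⟩ := QuotientGroup.mk_surjective x
        have h2 : (QuotientGroup.mk (pr H h) : A ⧸ P) = 1 := hx
        obtain ⟨m, hm, hm2⟩ := (QuotientGroup.eq_one_iff _).mp h2
        refine ⟨h * m⁻¹, ?_, ?_⟩
        · show h * m⁻¹ ∈ (pr H).ker
          rw [MonoidHom.mem_ker, map_mul, map_inv, hm2, mul_inv_cancel]
        · apply QuotientGroup.eq.mpr
          simpa using hm
      · rintro ⟨h, hh, rfl⟩
        have h2 : pr H h = 1 := hh
        show f (QuotientGroup.mk h) = 1
        rw [hf, h2]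
        rfl
    rw [h1]
    exact (pr_ker hH).image QuotientGroup.continuous_mk
  · rw [← (QuotientGroup.isQuotientMap_mk P).isClosed_preimage]
    have h1 : (QuotientGroup.mk : A → A ⧸ P) ⁻¹' (f.range : Set (A ⧸ P)) = (pr H).range := by
      ext a
      constructor
      · intro ha
        exact hsat a ha
      · rintro ⟨h, rfl⟩
        exact ⟨QuotientGroup.mk h, rfl⟩
    rw [h1]
    exact pr_range hH
  · -- the composite `H → range (pr H) → range f`
    let ρ : (pr H).range → f.range := fun a => ⟨QuotientGroup.mk a.1, by
      obtain ⟨a, ⟨h, rfl⟩⟩ := a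
      exact ⟨QuotientGroup.mk h, rfl⟩⟩
    have hρc : Continuous ρ :=
      (QuotientGroup.continuous_mk.comp continuous_subtype_val).subtype_mk _
    have hρs : Function.Surjective ρ := by
      rintro ⟨b, ⟨x, rfl⟩⟩
      obtain ⟨h, rfl⟩ := QuotientGroup.mk_surjective x
      exact ⟨⟨pr H h, ⟨h, rfl⟩⟩, rfl⟩
    have hρo : IsOpenMap ρ := by
      intro U hU
      obtain ⟨V, hV, rfl⟩ := isOpen_induced_iff.mp hU
      have h1 : ρ '' (Subtype.val ⁻¹' V) =
          Subtype.val ⁻¹' ((QuotientGroup.mk : A → A ⧸ P) '' V) := by
        ext y
        constructor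
        · rintro ⟨a, ha, rfl⟩
          exact ⟨a.1, ha, rfl⟩
        · rintro ⟨a, ha, hay⟩
          have h2 : (QuotientGroup.mk a : A ⧸ P) ∈ f.range := by
            rw [hay]
            exact y.2
          exact ⟨⟨a, hsat a h2⟩, ha, Subtype.ext hay⟩
      rw [h1]
      exact (QuotientGroup.isOpenMap_coe V hV).preimage continuous_subtype_val
    have h3 : IsQuotientMap (ρ ∘ (pr H).rangeRestrict) :=
      (hρo.isQuotientMap hρc hρs).comp (pr_quot hH)
    have h4 : ρ ∘ (pr H).rangeRestrict = f.rangeRestrict ∘ (QuotientGroup.mk : H → H ⧸ M) := rfl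
    rw [h4] at h3
    refine IsQuotientMap.of_comp QuotientGroup.continuous_mk ?_ h3
    have h5 : Continuous f := by
      rw [(QuotientGroup.isQuotientMap_mk M).continuous_iff]
      exact QuotientGroup.continuous_mk.comp (pr_continuous H)
    exact h5.subtype_mk _

end Product

end Pool.Agent.K4H26.MinimalGroups
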